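import Mathlib

/-! Stabilizer-like functions on finite vector spaces over the field with two elements. -/

namespace Pool.Agent.H682R3.Stab

open Module

/-- the sign character of `ZMod 2` -/
def sgn (t : ZMod 2) : ℂ := if t = 0 then 1 else -1

@[simp] lemma sgn_zero : sgn 0 = 1 := by simp [sgn]
@[simp] lemma sgn_one : sgn 1 = -1 := by simp [sgn]

lemma zmod2_cases (t : ZMod 2) : t = 0 ∨ t = 1 := by
  fin_cases t
  · left; rfl
  · right; rfl

lemma sgn_add (s t : ZMod 2) : sgn (s + t) = sgn s * sgn t := by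
  rcases zmod2_cases s with rfl | rfl <;> rcases zmod2_cases t with rfl | rfl <;>
    simp [show (1 : ZMod 2) + 1 = 0 from rfl]

lemma sgn_mul_self (t : ZMod 2) : sgn t * sgn t = 1 := by
  rcases zmod2_cases t with rfl | rfl <;> simp

lemma sgn_ne_zero (t : ZMod 2) : sgn t ≠ 0 := by
  rcases zmod2_cases t with rfl | rfl <;> simp

lemma sgn_inj {s t : ZMod 2} (h : sgn s = sgn t) : s = t := by
  rcases zmod2_cases s with rfl | rfl <;> rcases zmod2_cases t with rfl | rfl
  · rfl
  · exfalso; simp at h; norm_num at h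
  · exfalso; simp at h; norm_num at h
  · rfl

lemma zmod2_add_self (t : ZMod 2) : t + t = 0 := CharTwo.add_self_eq_zero t

section general

variable {V : Type} [AddCommGroup V] [Module (ZMod 2) V]
variable {M : Type} [AddCommGroup M] [Module ℂ M]

lemma vadd_self (v : V) : v + v = 0 := by
  have h : (2 : ZMod 2) • v = v + v := two_smul _ v
  rw [← h, show (2 : ZMod 2) = 0 from rfl, zero_smul]

/-- The Pauli operator attached to `p = (a, b)`. -/
def pauli (p : V × Dual (ZMod 2) V) (f : V → M) : V → M := fun x => sgn (p.2 x) • f (x + p.1)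

lemma pauli_pauli (p q : V × Dual (ZMod 2) V) (f : V → M) :
    pauli p (pauli q f) = sgn (q.2 p.1) • pauli (p + q) f := by
  funext x
  simp only [pauli, Pi.smul_apply, Prod.fst_add, Prod.snd_add, LinearMap.add_apply, map_add,
    sgn_add, smul_smul]
  rw [show x + p.1 + q.1 = x + (p.1 + q.1) by abel]
  congr 1
  ring

lemma pauli_smul (p : V × Dual (ZMod 2) V) (c : ℂ) (f : V → M) :
    pauli p (c • f) = c • pauli p f := by
  funext x
  simp only [pauli, Pi.smul_apply, smul_smul]
  rw [mul_comm]

lemma pauli_add (p : V × Dual (ZMod 2) V) (f g : V → M) :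
    pauli p (f + g) = pauli p f + pauli p g := by
  funext x
  simp [pauli]

lemma pauli_zero (f : V → M) : pauli 0 f = f := by
  funext x
  simp [pauli]

/-- The group of Pauli operators having `f` as an eigenvector. -/
def stabGroup (f : V → M) : Submodule (ZMod 2) (V × Dual (ZMod 2) V) where
  carrier := {p | ∃ c : ℂ, pauli p f = c • f}
  zero_mem' := ⟨1, by rw [pauli_zero, one_smul]⟩
  add_mem' := by
    rintro p q ⟨c, hc⟩ ⟨d, hd⟩
    refine ⟨sgn (q.2 p.1) * (c * d), ?_⟩
    have h1 := pauli_pauli p q f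
    rw [hd, pauli_smul, hc] at h1
    have h2 : sgn (q.2 p.1) • (sgn (q.2 p.1) • pauli (p + q) f) =
        sgn (q.2 p.1) • (d • c • f) := by rw [← h1]
    rw [smul_smul, sgn_mul_self, one_smul] at h2
    rw [h2, smul_smul, smul_smul]
    congr 1
    ring
  smul_mem' := by
    rintro t p ⟨c, hc⟩
    rcases zmod2_cases t with rfl | rfl
    · refine ⟨1, ?_⟩
      rw [zero_smul, pauli_zero, one_smul]
    · exact ⟨c, by rw [one_smul, hc]⟩

lemma mem_stabGroup {f : V → M} {p : V × Dual (ZMod 2) V} :
    p ∈ stabGroup f ↔ ∃ c : ℂ, pauli p f = c • f := Iff.rfl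

lemma eigen_ne_zero {f : V → M} (hf : f ≠ 0) {p : V × Dual (ZMod 2) V} {c : ℂ}
    (h : pauli p f = c • f) : c ≠ 0 := by
  rintro rfl
  apply hf
  funext x
  have h1 := congrFun h (x + p.1)
  simp only [pauli, Pi.smul_apply, zero_smul] at h1
  rw [add_assoc, vadd_self, add_zero] at h1
  exact (smul_eq_zero.1 h1).resolve_left (sgn_ne_zero _)

lemma eigen_sq {f : V → M} (hf : f ≠ 0) {p : V × Dual (ZMod 2) V} {c : ℂ}
    (h : pauli p f = c • f) : c * c = sgn (p.2 p.1) := by
  have h1 := pauli_pauli p p f
  rw [h, pauli_smul, h, show p + p = 0 from vadd_self p, pauli_zero, smul_smul] at h1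
  obtain ⟨x, hx⟩ : ∃ x, f x ≠ 0 := by
    by_contra hcon
    push Not at hcon
    exact hf (funext hcon)
  have h2 := congrFun h1 x
  simp only [Pi.smul_apply] at h2
  have h3 : (c * c - sgn (p.2 p.1)) • f x = 0 := by rw [sub_smul, h2, sub_self]
  exact sub_eq_zero.1 ((smul_eq_zero.1 h3).resolve_right hx)

/-- elements of the stabilizer group commute -/
lemma commute_of_mem {f : V → M} (hf : f ≠ 0) {p q : V × Dual (ZMod 2) V}
    (hp : p ∈ stabGroup f) (hq : q ∈ stabGroup f) : q.2 p.1 = p.2 q.1 := by
  obtain ⟨c, hc⟩ := hp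
  obtain ⟨d, hd⟩ := hq
  have h1 := pauli_pauli p q f
  have h2 := pauli_pauli q p f
  rw [hd, pauli_smul, hc] at h1
  rw [hc, pauli_smul, hd] at h2
  have h3 : sgn (q.2 p.1) • pauli (p + q) f = sgn (p.2 q.1) • pauli (p + q) f := by
    rw [← h1, add_comm p q, ← h2, smul_comm]
  have hsum : p + q ∈ stabGroup f := (stabGroup f).add_mem ⟨c, hc⟩ ⟨d, hd⟩
  obtain ⟨e, he⟩ := hsum
  have he0 := eigen_ne_zero hf he
  rw [he] at h3
  obtain ⟨x, hx⟩ : ∃ x, f x ≠ 0 := by
    by_contra hcon
    push Not at hcon
    exact hf (funext hcon)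
  have h4 := congrFun h3 x
  simp only [Pi.smul_apply, smul_smul] at h4
  have h5 : (sgn (q.2 p.1) * e - sgn (p.2 q.1) * e) • f x = 0 := by
    rw [sub_smul, h4, sub_self]
  have h6 := (smul_eq_zero.1 h5).resolve_right hx
  have h7 : sgn (q.2 p.1) = sgn (p.2 q.1) := by
    have : (sgn (q.2 p.1) - sgn (p.2 q.1)) * e = 0 := by linear_combination h6
    exact sub_eq_zero.1 ((mul_eq_zero.1 this).resolve_right he0)
  exact sgn_inj h7

variable [Finite V]

/-- `f` is a common eigenvector of at least `|V|` Pauli operators (up to phase), or zero. -/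
def StabLike (f : V → M) : Prop := finrank (ZMod 2) V ≤ finrank (ZMod 2) (stabGroup f)

instance : FiniteDimensional (ZMod 2) V := Module.Finite.of_finite

lemma StabLike.zero : StabLike (0 : V → M) := by
  have h : stabGroup (0 : V → M) = ⊤ := by
    rw [eq_top_iff]
    intro p _
    refine ⟨1, ?_⟩
    funext x
    simp [pauli]
  unfold StabLike
  rw [h, finrank_top, Module.finrank_prod]
  omega

lemma StabLike.of_map {X : Type} [AddCommGroup X] [Module (ZMod 2) X] [Module.Finite (ZMod 2) X]
    {g : V → M} (φ : X →ₗ[ZMod 2] (V × Dual (ZMod 2) V))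
    (hE : ∀ p, φ p ∈ stabGroup g)
    (hdim : finrank (ZMod 2) V + finrank (ZMod 2) (LinearMap.ker φ) ≤ finrank (ZMod 2) X) :
    StabLike g := by
  have h1 := LinearMap.finrank_range_add_finrank_ker (K := ZMod 2) (V := X)
    (V₂ := V × Dual (ZMod 2) V) φ
  have h2 : LinearMap.range φ ≤ stabGroup g := by
    rintro _ ⟨p, rfl⟩
    exact hE p
  have h3 := Submodule.finrank_mono h2
  unfold StabLike
  omega

lemma StabLike.of_inj {X : Type} [AddCommGroup X] [Module (ZMod 2) X] [Module.Finite (ZMod 2) X]
    {g : V → M} (φ : X →ₗ[ZMod 2] (V × Dual (ZMod 2) V)) (hinj : Function.Injective φ)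
    (hE : ∀ p, φ p ∈ stabGroup g)
    (hdim : finrank (ZMod 2) V ≤ finrank (ZMod 2) X) :
    StabLike g := by
  refine StabLike.of_map φ hE ?_
  have h1 : LinearMap.ker φ = ⊥ := by
    rw [Submodule.eq_bot_iff]
    intro x hx
    apply hinj
    rw [map_zero]
    exact hx
  rw [h1, finrank_bot]
  omega

lemma StabLike.smul {f : V → M} (hf : StabLike f) (c : ℂ) : StabLike (c • f) := by
  refine le_trans hf (Submodule.finrank_mono ?_)
  rintro p ⟨d, hd⟩
  refine ⟨d, ?_⟩
  rw [pauli_smul, hd, smul_comm]

lemma StabLike.translate {f : V → M} (hf : StabLike f) (v : V) : StabLike (fun x => f (x + v)) := by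
  refine le_trans hf (Submodule.finrank_mono ?_)
  rintro p ⟨d, hd⟩
  refine ⟨sgn (p.2 v) * d, ?_⟩
  funext x
  have h1 := congrFun hd (x + v)
  simp only [pauli, Pi.smul_apply, map_add, sgn_add, mul_smul] at h1 ⊢
  rw [← h1, show x + p.1 + v = x + v + p.1 by abel, smul_smul, smul_smul]
  congr 1
  linear_combination (-sgn (p.2 x)) * (sgn_mul_self (p.2 v))

/-- pulling back along a linear equivalence -/
lemma StabLike.equiv {V' : Type} [AddCommGroup V'] [Module (ZMod 2) V'] [Finite V']
    {f : V → M} (hf : StabLike f) (e : V' ≃ₗ[ZMod 2] V) : StabLike (fun x => f (e x)) := by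
  have hinj : Function.Injective ((e.symm.toLinearMap).prodMap (e.toLinearMap.dualMap)) := by
    have h1 : Function.Injective (e.symm.toLinearMap) := e.symm.injective
    have h2 : Function.Injective (e.toLinearMap.dualMap) :=
      LinearMap.dualMap_injective_of_surjective e.surjective
    intro p q hpq
    simp only [LinearMap.prodMap_apply, Prod.mk.injEq] at hpq
    exact Prod.ext (h1 hpq.1) (h2 hpq.2)
  refine StabLike.of_inj (X := stabGroup f) (g := fun x => f (e x))
    (((e.symm.toLinearMap).prodMap (e.toLinearMap.dualMap)).domRestrict (stabGroup f)) ?_ ?_ ?_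
  · intro p q hpq
    exact Subtype.ext (hinj hpq)
  · rintro ⟨p, c, hc⟩
    refine ⟨c, ?_⟩
    funext x
    have h1 := congrFun hc (e x)
    simp only [pauli, Pi.smul_apply] at h1 ⊢
    rw [← h1]
    simp
  · rw [e.finrank_eq]
    exact hf

/-- extension by dummy variables -/
lemma StabLike.fst {W : Type} [AddCommGroup W] [Module (ZMod 2) W] [Finite W]
    {f : V → M} (hf : StabLike f) : StabLike (fun x : V × W => f x.1) := by
  let φ : (stabGroup f × W) →ₗ[ZMod 2] ((V × W) × Dual (ZMod 2) (V × W)) :=
    { toFun := fun q => ((q.1.1.1, q.2), q.1.1.2.comp (LinearMap.fst (ZMod 2) V W))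
      map_add' := by intro x y; rfl
      map_smul' := by intro c x; rfl }
  have hinj : Function.Injective φ := by
    rintro ⟨⟨⟨a, b⟩, h⟩, w⟩ ⟨⟨⟨a', b'⟩, h'⟩, w'⟩ heq
    simp only [φ, LinearMap.coe_mk, AddHom.coe_mk, Prod.mk.injEq] at heq
    obtain ⟨⟨rfl, rfl⟩, h2⟩ := heq
    have h3 : b = b' := by
      ext x
      have := congrArg (fun l => l (x, (0 : W))) h2
      simpa using this
    subst h3
    rfl
  refine StabLike.of_inj (X := stabGroup f × W) (V := V × W) φ hinj ?_ ?_
  · rintro ⟨⟨p, c, hc⟩, w⟩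
    refine ⟨c, ?_⟩
    funext x
    have h1 := congrFun hc x.1
    simp only [pauli, Pi.smul_apply] at h1 ⊢
    rw [← h1]
    rfl
  · rw [Module.finrank_prod, Module.finrank_prod]
    unfold StabLike at hf
    omega

/-- the kernel of a linear functional has codimension at most one -/
lemma finrank_ker_functional {X : Type} [AddCommGroup X] [Module (ZMod 2) X] [Module.Finite (ZMod 2) X]
    (β : X →ₗ[ZMod 2] ZMod 2) :
    finrank (ZMod 2) X ≤ finrank (ZMod 2) (LinearMap.ker β) + 1 := by
  have h1 := LinearMap.finrank_range_add_finrank_ker (K := ZMod 2) (V := X) (V₂ := ZMod 2) β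
  have h2 : finrank (ZMod 2) (LinearMap.range β) ≤ 1 := by
    have := Submodule.finrank_le (LinearMap.range β)
    simpa using this
  omega

/-- multiplication by the indicator (times two) of an affine hyperplane -/
lemma StabLike.indicator {f : V → M} (hf : StabLike f) (ℓ : Dual (ZMod 2) V) (c : ZMod 2) :
    StabLike (fun x => (1 + sgn (ℓ x + c)) • f x) := by
  by_cases hf0 : f = 0
  · subst hf0
    have : (fun x => (1 + sgn (ℓ x + c)) • (0 : V → M) x) = 0 := by
      funext x; simp
    rw [this]
    exact StabLike.zero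
  set g : V → M := fun x => (1 + sgn (ℓ x + c)) • f x with hg
  let β : stabGroup f →ₗ[ZMod 2] ZMod 2 :=
    { toFun := fun p => ℓ p.1.1
      map_add' := by intro x y; simp
      map_smul' := by intro t x; simp }
  have hmem : ∀ p : stabGroup f, β p = 0 → (p : V × Dual (ZMod 2) V) ∈ stabGroup g := by
    rintro ⟨p, d, hd⟩ hp
    refine ⟨d, ?_⟩
    funext x
    have h1 := congrFun hd x
    have h2 : ℓ p.1 = 0 := hp
    simp only [pauli, Pi.smul_apply, hg] at h1 ⊢
    rw [map_add, h2, add_zero, smul_comm, h1, smul_comm]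
  have hℓ : ((0 : V), ℓ) ∈ stabGroup g := by
    refine ⟨sgn c, ?_⟩
    funext x
    simp only [pauli, Pi.smul_apply, hg, add_zero, smul_smul]
    congr 1
    rw [sgn_add]
    linear_combination (sgn c) * (sgn_mul_self (ℓ x)) - (sgn (ℓ x)) * (sgn_mul_self c)
  by_cases hall : ∀ p, β p = 0
  · refine le_trans hf (Submodule.finrank_mono ?_)
    intro p hp
    exact hmem ⟨p, hp⟩ (hall _)
  · push Not at hall
    obtain ⟨p0, hp0⟩ := hall
    have hnot : ((0 : V), ℓ) ∉ stabGroup f := by
      intro hin
      have := commute_of_mem hf0 hin p0.2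
      apply hp0
      simp at this
      exact this.symm
    -- the map ker β × ZMod 2 → pairs
    let φ : (LinearMap.ker β × ZMod 2) →ₗ[ZMod 2] (V × Dual (ZMod 2) V) :=
      { toFun := fun q => q.1.1.1 + q.2 • ((0 : V), ℓ)
        map_add' := by
          intro x y
          simp only [Prod.fst_add, Prod.snd_add, Submodule.coe_add, add_smul]
          abel
        map_smul' := by
          intro t x
          simp only [Prod.smul_fst, Prod.smul_snd, Submodule.coe_smul, smul_add, smul_smul,
            RingHom.id_apply, smul_eq_mul] }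
    have hinj : Function.Injective φ := by
      rintro ⟨q, s⟩ ⟨q', s'⟩ heq
      simp only [φ, LinearMap.coe_mk, AddHom.coe_mk] at heq
      have h1 : (s - s') • ((0 : V), ℓ) ∈ stabGroup f := by
        have h0 : (s - s') • ((0 : V), ℓ) = q'.1.1 - q.1.1 := by
          have e1 := sub_smul s s' ((0 : V), ℓ)
          rw [e1, sub_eq_sub_iff_add_eq_add, add_comm, heq]
        rw [h0]
        exact (stabGroup f).sub_mem q'.1.2 q.1.2
      have h2 : s = s' := by
        rcases zmod2_cases (s - s') with h | h
        · exact sub_eq_zero.1 h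
        · rw [h, one_smul] at h1
          exact absurd h1 hnot
      subst h2
      have h3 := add_right_cancel heq
      have h4 : q = q' := Subtype.ext (Subtype.ext h3)
      rw [h4]
    refine StabLike.of_inj φ hinj ?_ ?_
    · rintro ⟨q, s⟩
      exact (stabGroup g).add_mem (hmem q.1 q.2) ((stabGroup g).smul_mem s hℓ)
    · have h1 := finrank_ker_functional β
      rw [Module.finrank_prod, Module.finrank_self]
      unfold StabLike at hf
      omega

/-- summing out one bit -/
lemma StabLike.sumBit {f : V × ZMod 2 → M} (hf : StabLike f) :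
    StabLike (fun x => f (x, 0) + f (x, 1)) := by
  by_cases hf0 : f = 0
  · subst hf0
    have : (fun x : V => (0 : V × ZMod 2 → M) (x, 0) + (0 : V × ZMod 2 → M) (x, 1)) = 0 := by
      funext x; simp
    rw [this]
    exact StabLike.zero
  set g : V → M := fun x => f (x, 0) + f (x, 1) with hg
  let β : stabGroup f →ₗ[ZMod 2] ZMod 2 :=
    { toFun := fun p => p.1.2 (0, 1)
      map_add' := by intro x y; simp
      map_smul' := by intro t x; simp }
  let φ : LinearMap.ker β →ₗ[ZMod 2] (V × Dual (ZMod 2) V) :=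
    { toFun := fun q => (q.1.1.1.1, q.1.1.2.comp (LinearMap.inl (ZMod 2) V (ZMod 2)))
      map_add' := by intro x y; rfl
      map_smul' := by intro c x; rfl }
  have hmem : ∀ q, φ q ∈ stabGroup g := by
    rintro ⟨⟨⟨⟨a, t⟩, b⟩, d, hd⟩, hq⟩
    refine ⟨d, ?_⟩
    funext x
    have hb : b (0, 1) = 0 := hq
    have h0 := congrFun hd (x, 0)
    have h1 := congrFun hd (x, 1)
    have hb1 : b (x, 1) = b (x, 0) := by
      have : ((x, 1) : V × ZMod 2) = (x, 0) + (0, 1) := by simp
      rw [this, map_add, hb, add_zero]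
    simp only [pauli, Pi.smul_apply, Prod.mk_add_mk, hb1] at h0 h1
    simp only [φ, pauli, Pi.smul_apply, hg, LinearMap.coe_mk, AddHom.coe_mk, LinearMap.comp_apply,
      LinearMap.inl_apply, smul_add]
    rw [← h0, ← h1]
    rcases zmod2_cases t with rfl | rfl
    · simp
    · have : (1 : ZMod 2) + 1 = 0 := rfl
      rw [this, zero_add, add_comm]
  have hker : ∀ q, φ q = 0 → ∃ t : ZMod 2, (q.1.1 : (V × ZMod 2) × Dual (ZMod 2) (V × ZMod 2)) =
      t • (((0 : V), (1 : ZMod 2)), 0) := by
    rintro ⟨⟨⟨⟨a, t⟩, b⟩, hp⟩, hq⟩ h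
    have hb : b (0, 1) = 0 := hq
    simp only [φ, LinearMap.coe_mk, AddHom.coe_mk, Prod.mk_eq_zero] at h
    obtain ⟨h1, h2⟩ := h
    refine ⟨t, ?_⟩
    have h3 : b = 0 := by
      apply LinearMap.ext
      rintro ⟨x, s⟩
      have h4 : b (x, 0) = 0 := by
        have := congrArg (fun l => l x) h2
        simpa using this
      have h5 : ((x, s) : V × ZMod 2) = (x, 0) + s • (0, 1) := by simp
      rw [h5, map_add, map_smul, hb, h4]
      simp
    simp [h1, h3]
  have hV : finrank (ZMod 2) (V × ZMod 2) = finrank (ZMod 2) V + 1 := by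
    rw [Module.finrank_prod, Module.finrank_self]
  by_cases hall : ∀ p, β p = 0
  · refine StabLike.of_map φ hmem ?_
    have h1 : LinearMap.ker β = ⊤ := by
      rw [eq_top_iff]; intro p _; exact hall p
    have h2 : finrank (ZMod 2) (LinearMap.ker β) = finrank (ZMod 2) (stabGroup f) := by
      rw [h1, finrank_top]
    have h3 : finrank (ZMod 2) (LinearMap.ker φ) ≤ 1 := by
      let ψ : LinearMap.ker φ →ₗ[ZMod 2] ZMod 2 :=
        { toFun := fun q => q.1.1.1.1.2
          map_add' := by intro x y; rfl
          map_smul' := by intro c x; rfl }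
      have hψ : Function.Injective ψ := by
        rintro ⟨q, hq⟩ ⟨q', hq'⟩ heq
        obtain ⟨t, ht⟩ := hker q hq
        obtain ⟨t', ht'⟩ := hker q' hq'
        have e1 : q.1.1.1.2 = q'.1.1.1.2 := heq
        rw [ht, ht'] at e1
        simp at e1
        subst e1
        have h5 : q = q' := Subtype.ext (Subtype.ext (by rw [ht, ht']))
        subst h5
        rfl
      have := LinearMap.finrank_le_finrank_of_injective hψ
      simpa using this
    unfold StabLike at hf
    omega
  · push Not at hall
    obtain ⟨p0, hp0⟩ := hall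
    have hinj : Function.Injective φ := by
      rw [injective_iff_map_eq_zero]
      intro q hq
      obtain ⟨t, ht⟩ := hker q hq
      rcases zmod2_cases t with rfl | rfl
      · rw [zero_smul] at ht
        exact Subtype.ext (Subtype.ext ht)
      · exfalso
        rw [one_smul] at ht
        have h1 := commute_of_mem hf0 (ht ▸ q.1.2) p0.2
        apply hp0
        simp at h1
        exact h1
    refine StabLike.of_inj φ hinj hmem ?_
    have h1 := finrank_ker_functional β
    unfold StabLike at hf
    omega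

end general

end Pool.Agent.H682R3.Stab
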