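import Pool.Agent.H682R3.Stab.Count

/-! Post-selected Clifford circuits with magic inputs: rank monotonicity. -/

namespace Pool.Agent.H682R3.Stab

open Module

variable {V : Type} [AddCommGroup V] [Module (ZMod 2) V] [Finite V]
variable {V' : Type} [AddCommGroup V'] [Module (ZMod 2) V'] [Finite V']

lemma HasRank.comp {r : ℕ} {F : V → ℂ} (h : HasRank r F) (L : V' →ₗ[ZMod 2] V) :
    HasRank r (fun x => F (L x)) := by
  obtain ⟨φ, h1, rfl⟩ := h
  refine ⟨fun i x => φ i (L x), fun i => (h1 i).comp L, ?_⟩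
  funext x
  simp [Finset.sum_apply]

lemma HasRank.translate {r : ℕ} {F : V → ℂ} (h : HasRank r F) (v : V) :
    HasRank r (fun x => F (x + v)) := by
  obtain ⟨φ, h1, rfl⟩ := h
  refine ⟨fun i x => φ i (x + v), fun i => (h1 i).translate v, ?_⟩
  funext x
  simp [Finset.sum_apply]

lemma HasRank.affine {r : ℕ} {F : V → ℂ} (h : HasRank r F) (L : V' →ₗ[ZMod 2] V) (v : V) :
    HasRank r (fun x => F (L x + v)) := (h.translate v).comp L

lemma HasRank.smul {r : ℕ} {F : V → ℂ} (h : HasRank r F) (c : ℂ) :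
    HasRank r (fun x => c * F x) := by
  obtain ⟨φ, h1, rfl⟩ := h
  refine ⟨fun i => c • φ i, fun i => (h1 i).smul c, ?_⟩
  funext x
  simp [Finset.sum_apply, Finset.mul_sum]

lemma HasRank.sgnLin {r : ℕ} {F : V → ℂ} (h : HasRank r F) (ℓ : Dual (ZMod 2) V) :
    HasRank r (fun x => sgn (ℓ x) * F x) := by
  obtain ⟨φ, h1, rfl⟩ := h
  refine ⟨fun i x => sgn (ℓ x) • φ i x, fun i => (h1 i).sgnLin ℓ, ?_⟩
  funext x
  simp [Finset.sum_apply, Finset.mul_sum]

lemma HasRank.sgnMul {r : ℕ} {F : V → ℂ} (h : HasRank r F) (s t : Dual (ZMod 2) V) :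
    HasRank r (fun x => sgn (s x * t x) * F x) := by
  obtain ⟨φ, h1, rfl⟩ := h
  refine ⟨fun i x => sgn (s x * t x) • φ i x, fun i => (h1 i).sgnMul s t, ?_⟩
  funext x
  simp [Finset.sum_apply, Finset.mul_sum]

lemma HasRank.sumAll {r : ℕ} {W : Type} [AddCommGroup W] [Module (ZMod 2) W] [Fintype W]
    {F : V × W → ℂ} (h : HasRank r F) : HasRank r (fun x => ∑ w, F (x, w)) := by
  obtain ⟨φ, h1, rfl⟩ := h
  refine ⟨fun i x => ∑ w, φ i (x, w), fun i => (h1 i).sumAll, ?_⟩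
  funext x
  simp only [Finset.sum_apply]
  exact Finset.sum_comm

/-- the one-qubit vector `e0 + x e1` -/
def qv (x : ℂ) (t : ZMod 2) : ℂ := if t = 0 then 1 else x

/-- its tensor powers -/
def mag (x : ℂ) (d : ℕ) (y : Fin d → ZMod 2) : ℂ := ∏ i, qv x (y i)

/-- The rank of `v^{⊗d} ⊗ F` is at most `r`. -/
def Rk (x : ℂ) (d r : ℕ) (F : V → ℂ) : Prop :=
  HasRank r (fun z : (Fin d → ZMod 2) × V => mag x d z.1 * F z.2)

lemma Rk.start {x : ℂ} {d r : ℕ} (h : HasRank r (mag x d)) :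
    Rk x d r (fun _ : V => (1 : ℂ)) := by
  have := h.comp (LinearMap.fst (ZMod 2) (Fin d → ZMod 2) V)
  unfold Rk
  simpa using this

lemma Rk.finish {x : ℂ} {d r : ℕ} {F : V → ℂ} (h : Rk x d r F) : HasRank r F := by
  have := h.comp (LinearMap.inr (ZMod 2) (Fin d → ZMod 2) V)
  simpa [mag, qv] using this

lemma Rk.affine {x : ℂ} {d r : ℕ} {F : V → ℂ} (h : Rk x d r F) (L : V' →ₗ[ZMod 2] V) (v : V) :
    Rk x d r (fun z => F (L z + v)) := by
  have := HasRank.affine h (LinearMap.prodMap LinearMap.id L) ((0 : Fin d → ZMod 2), v)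
  unfold Rk
  simpa using this

lemma Rk.comp {x : ℂ} {d r : ℕ} {F : V → ℂ} (h : Rk x d r F) (L : V' →ₗ[ZMod 2] V) :
    Rk x d r (fun z => F (L z)) := by
  simpa using h.affine L 0

lemma Rk.smul {x : ℂ} {d r : ℕ} {F : V → ℂ} (h : Rk x d r F) (c : ℂ) :
    Rk x d r (fun z => c * F z) := by
  have := HasRank.smul h c
  refine (congrArg (HasRank r) ?_).mp this
  funext z
  ring

lemma Rk.sgnLin {x : ℂ} {d r : ℕ} {F : V → ℂ} (h : Rk x d r F) (ℓ : Dual (ZMod 2) V) :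
    Rk x d r (fun z => sgn (ℓ z) * F z) := by
  have := HasRank.sgnLin h (ℓ.comp (LinearMap.snd (ZMod 2) (Fin d → ZMod 2) V))
  refine (congrArg (HasRank r) ?_).mp this
  funext z
  simp only [LinearMap.comp_apply, LinearMap.snd_apply]
  ring

lemma Rk.sgnMul {x : ℂ} {d r : ℕ} {F : V → ℂ} (h : Rk x d r F) (s t : Dual (ZMod 2) V) :
    Rk x d r (fun z => sgn (s z * t z) * F z) := by
  have := HasRank.sgnMul h (s.comp (LinearMap.snd (ZMod 2) (Fin d → ZMod 2) V))
    (t.comp (LinearMap.snd (ZMod 2) (Fin d → ZMod 2) V))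
  refine (congrArg (HasRank r) ?_).mp this
  funext z
  simp only [LinearMap.comp_apply, LinearMap.snd_apply]
  ring

lemma Rk.sumAll {x : ℂ} {d r : ℕ} {W : Type} [AddCommGroup W] [Module (ZMod 2) W] [Fintype W]
    {F : V × W → ℂ} (h : Rk x d r F) : Rk x d r (fun z => ∑ w, F (z, w)) := by
  have h1 := HasRank.comp h (LinearEquiv.prodAssoc (ZMod 2) (Fin d → ZMod 2) V W).toLinearMap
  have h2 := HasRank.sumAll h1
  refine (congrArg (HasRank r) ?_).mp h2
  funext z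
  simp [Finset.mul_sum]

/-- affine functions -/
def Aff (s : V → ZMod 2) : Prop := ∃ (ℓ : Dual (ZMod 2) V) (c : ZMod 2), ∀ z, s z = ℓ z + c

omit [Finite V] in
lemma Aff.lin (ℓ : Dual (ZMod 2) V) : Aff (fun z => ℓ z) := ⟨ℓ, 0, fun z => by simp⟩

omit [Finite V] in
lemma Aff.add {s t : V → ZMod 2} (hs : Aff s) (ht : Aff t) : Aff (fun z => s z + t z) := by
  obtain ⟨ℓ, c, h⟩ := hs
  obtain ⟨ℓ', c', h'⟩ := ht
  refine ⟨ℓ + ℓ', c + c', fun z => ?_⟩
  simp only [h, h', LinearMap.add_apply]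
  ring

omit [Finite V] in
lemma Aff.const (c : ZMod 2) : Aff (fun _ : V => c) := ⟨0, c, fun z => by simp⟩

omit [Finite V] [Finite V'] in
lemma Aff.comp {s : V → ZMod 2} (hs : Aff s) (L : V' →ₗ[ZMod 2] V) : Aff (fun z => s (L z)) := by
  obtain ⟨ℓ, c, h⟩ := hs
  exact ⟨ℓ.comp L, c, fun z => by simp only [h]; rfl⟩

/-- spending one magic state -/
lemma Rk.mag {x : ℂ} {d r : ℕ} {F : V → ℂ} (h : Rk x (d + 1) r F) {s : V → ZMod 2}
    (hs : Aff s) : Rk x d r (fun z => qv x (s z) * F z) := by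
  obtain ⟨ℓ, c, hℓ⟩ := hs
  let L : ((Fin d → ZMod 2) × V) →ₗ[ZMod 2] ((Fin (d + 1) → ZMod 2) × V) :=
    { toFun := fun q => (Fin.cons (ℓ q.2) q.1, q.2)
      map_add' := by
        rintro ⟨x, u⟩ ⟨x', u'⟩
        refine Prod.ext ?_ rfl
        funext i
        refine Fin.cases ?_ (fun j => ?_) i <;> simp
      map_smul' := by
        rintro c ⟨x, u⟩
        refine Prod.ext ?_ rfl
        funext i
        refine Fin.cases ?_ (fun j => ?_) i <;> simp }
  have h1 := HasRank.affine h L (Fin.cons c 0, 0)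
  refine (congrArg (HasRank r) ?_).mp h1
  funext z
  simp only [L, LinearMap.coe_mk, AddHom.coe_mk, Prod.mk_add_mk, add_zero, Stab.mag,
    Fin.prod_univ_succ, Pi.add_apply, Fin.cons_zero, Fin.cons_succ, hℓ]
  simp only [Pi.zero_apply, add_zero]
  ring

lemma Rk.mag' {x : ℂ} {d d' r : ℕ} {F : V → ℂ} (h : Rk x d' r F) (hd : d' = d + 1)
    {s : V → ZMod 2} (hs : Aff s) : Rk x d r (fun z => qv x (s z) * F z) := by
  subst hd
  exact h.mag hs

lemma nand_identity (x : ℂ) (s t : ZMod 2) :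
    ∑ w : ZMod 2, sgn w * (qv x (w + 1) * (qv x (w + 1) * (qv x (w + 1) * (qv x s * (qv x t *
      (qv x (w + s + 1) * (qv x (w + t + 1) * (qv x (s + t + 1) * (qv x (w + s + t)))))))))) =
      (x ^ 6 - x ^ 2) * (if s * t = 0 then 1 else 0) := by
  have h3 : (Finset.univ : Finset (ZMod 2)) = {0, 1} := rfl
  rw [h3, Finset.sum_pair (by decide)]
  have e1 : (1 : ZMod 2) + 1 = 0 := rfl
  have e2 : (1 : ZMod 2) ≠ 0 := by decide
  rcases zmod2_cases s with rfl | rfl <;> rcases zmod2_cases t with rfl | rfl <;>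
    simp [qv, sgn, e1, e2] <;> ring

/-- the logical projector `[s t = 0]` costs nine magic states -/
lemma Rk.nand {x : ℂ} (hx0 : x ≠ 0) (hx4 : x ^ 4 ≠ 1) {d r : ℕ} {F : V → ℂ}
    (h : Rk x (d + 9) r F) {s t : V → ZMod 2} (hs : Aff s) (ht : Aff t) :
    Rk x d r (fun z => (if s z * t z = 0 then 1 else 0) * F z) := by
  have hw : Aff (fun q : V × ZMod 2 => q.2) := Aff.lin (LinearMap.snd (ZMod 2) V (ZMod 2))
  have hs' : Aff (fun q : V × ZMod 2 => s q.1) := hs.comp (LinearMap.fst (ZMod 2) V (ZMod 2))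
  have ht' : Aff (fun q : V × ZMod 2 => t q.1) := ht.comp (LinearMap.fst (ZMod 2) V (ZMod 2))
  have h1 : Aff (fun _ : V × ZMod 2 => (1 : ZMod 2)) := Aff.const 1
  have g0 : Rk x (d + 9) r (fun q : V × ZMod 2 => F q.1) :=
    h.comp (LinearMap.fst (ZMod 2) V (ZMod 2))
  have g1 := Rk.mag' (d := d + 8) g0 (by omega) ((hw.add hs').add ht')
  have g2 := Rk.mag' (d := d + 7) g1 (by omega) ((hs'.add ht').add h1)
  have g3 := Rk.mag' (d := d + 6) g2 (by omega) ((hw.add ht').add h1)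
  have g4 := Rk.mag' (d := d + 5) g3 (by omega) ((hw.add hs').add h1)
  have g5 := Rk.mag' (d := d + 4) g4 (by omega) ht'
  have g6 := Rk.mag' (d := d + 3) g5 (by omega) hs'
  have g7 := Rk.mag' (d := d + 2) g6 (by omega) (hw.add h1)
  have g8 := Rk.mag' (d := d + 1) g7 (by omega) (hw.add h1)
  have g9 := Rk.mag' (d := d) g8 (by omega) (hw.add h1)
  have g10 := Rk.sgnLin g9 (LinearMap.snd (ZMod 2) V (ZMod 2))
  have g11 : Rk x d r (fun z : V => ∑ w : ZMod 2, sgn w * (qv x (w + 1) * (qv x (w + 1) *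
      (qv x (w + 1) * (qv x (s z) * (qv x (t z) * (qv x (w + s z + 1) * (qv x (w + t z + 1) *
      (qv x (s z + t z + 1) * (qv x (w + s z + t z) * F z)))))))))) := Rk.sumAll g10
  have g12 := Rk.smul g11 ((x ^ 6 - x ^ 2)⁻¹)
  refine (congrArg (Rk x d r) ?_).mp g12
  funext z
  have hne : x ^ 6 - x ^ 2 ≠ 0 := by
    have : x ^ 6 - x ^ 2 = x ^ 2 * (x ^ 4 - 1) := by ring
    rw [this]
    exact mul_ne_zero (pow_ne_zero _ hx0) (sub_ne_zero.2 hx4)
  have h2 := nand_identity x (s z) (t z)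
  have h3 : (if s z * t z = 0 then (1 : ℂ) else 0) = (x ^ 6 - x ^ 2)⁻¹ *
      ∑ w : ZMod 2, sgn w * (qv x (w + 1) * (qv x (w + 1) * (qv x (w + 1) * (qv x (s z) *
      (qv x (t z) * (qv x (w + s z + 1) * (qv x (w + t z + 1) * (qv x (s z + t z + 1) *
      (qv x (w + s z + t z)))))))))) := by
    rw [h2, ← mul_assoc, inv_mul_cancel₀ hne, one_mul]
  rw [h3, mul_assoc, Finset.sum_mul]
  have h4 : ∀ w : ZMod 2, sgn w * (qv x (w + 1) * (qv x (w + 1) * (qv x (w + 1) * (qv x (s z) *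
      (qv x (t z) * (qv x (w + s z + 1) * (qv x (w + t z + 1) * (qv x (s z + t z + 1) *
      (qv x (w + s z + t z) * F z))))))))) = sgn w * (qv x (w + 1) * (qv x (w + 1) *
      (qv x (w + 1) * (qv x (s z) * (qv x (t z) * (qv x (w + s z + 1) * (qv x (w + t z + 1) *
      (qv x (s z + t z + 1) * (qv x (w + s z + t z)))))))))) * F z := by
    intro w
    simp only [mul_assoc]
  rw [Finset.sum_congr rfl (fun w _ => h4 w)]

/-- many NAND projectors -/
lemma Rk.nands {x : ℂ} (hx0 : x ≠ 0) (hx4 : x ^ 4 ≠ 1) {ι : Type} (S : Finset ι)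
    {s t : ι → V → ZMod 2} (hs : ∀ i, Aff (s i)) (ht : ∀ i, Aff (t i)) :
    ∀ {d r : ℕ} {F : V → ℂ}, Rk x (d + 9 * S.card) r F →
      Rk x d r (fun z => (∏ i ∈ S, (if s i z * t i z = 0 then (1 : ℂ) else 0)) * F z) := by
  classical
  induction S using Finset.induction_on with
  | empty =>
    intro d r F h
    simpa using h
  | insert i S hi ih =>
    intro d r F h
    rw [Finset.card_insert_of_notMem hi, mul_add, mul_one, ← add_assoc,
      show d + 9 * S.card + 9 = (d + 9) + 9 * S.card by ring] at h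
    have h1 := Rk.nand hx0 hx4 (ih h) (hs i) (ht i)
    refine (congrArg (Rk x d r) ?_).mp h1
    funext z
    rw [Finset.prod_insert hi]
    ring

/-- free affine constraint -/
lemma Rk.constraint {x : ℂ} {d r : ℕ} {F : V → ℂ} (h : Rk x d r F) {s : V → ZMod 2}
    (hs : Aff s) : Rk x d r (fun z => (if s z = 0 then 1 else 0) * F z) := by
  obtain ⟨ℓ, c, hℓ⟩ := hs
  have g0 : Rk x d r (fun q : V × ZMod 2 => F q.1) :=
    h.comp (LinearMap.fst (ZMod 2) V (ZMod 2))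
  have g1 := Rk.sgnMul g0 (LinearMap.snd (ZMod 2) V (ZMod 2))
    (ℓ.comp (LinearMap.fst (ZMod 2) V (ZMod 2)))
  have g2 := Rk.sgnLin g1 (c • LinearMap.snd (ZMod 2) V (ZMod 2))
  have g3 := Rk.sumAll g2
  have g4 := Rk.smul g3 ((2 : ℂ)⁻¹)
  refine (congrArg (Rk x d r) ?_).mp g4
  funext z
  have h3 : (Finset.univ : Finset (ZMod 2)) = {0, 1} := rfl
  rw [h3, Finset.sum_pair (by decide)]
  simp only [LinearMap.snd_apply, LinearMap.comp_apply, LinearMap.fst_apply, LinearMap.smul_apply,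
    smul_eq_mul, mul_zero, zero_mul, mul_one, one_mul, sgn_zero]
  rw [hℓ]
  have e1 : (1 : ZMod 2) + 1 = 0 := rfl
  have e2 : (1 : ZMod 2) ≠ 0 := by decide
  rcases zmod2_cases (ℓ z) with h | h <;> rcases zmod2_cases c with rfl | rfl <;>
    simp [h, e1] <;> ring

end Pool.Agent.H682R3.Stab
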