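import Pool.Agent.H682R3.Stab.Ops

/-! Counting: there are few stabilizer-like lines, so some sign function has large rank. -/

namespace Pool.Agent.H682R3.Stab

open Module

variable {V : Type} [AddCommGroup V] [Module (ZMod 2) V] [Finite V]

/-- `F` is a sum of `r` stabilizer-like functions. -/
def HasRank (r : ℕ) (F : V → ℂ) : Prop :=
  ∃ φ : Fin r → V → ℂ, (∀ i, StabLike (φ i)) ∧ F = ∑ i, φ i

/-- compatibility of a function with a list of Pauli eigenvalue constraints -/
def Good {n : ℕ} (δ : Fin n → (V × Dual (ZMod 2) V) × Fin 4) (f : V → ℂ) : Prop :=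
  f ≠ 0 ∧ LinearIndependent (ZMod 2) (fun i => (δ i).1) ∧
    ∀ i, pauli (δ i).1 f = (Complex.I ^ ((δ i).2 : ℕ)) • f

lemma good_unique {δ : Fin (finrank (ZMod 2) V) → (V × Dual (ZMod 2) V) × Fin 4} {f g : V → ℂ}
    (hf : Good δ f) (hg : Good δ g) : ∃ c : ℂ, f = c • g := by
  obtain ⟨hf0, hlin, hf1⟩ := hf
  obtain ⟨hg0, -, hg1⟩ := hg
  obtain ⟨x0, hx0⟩ : ∃ x, g x ≠ 0 := by
    by_contra hcon
    push Not at hcon
    exact hg0 (funext hcon)
  let F : V → ℂ × ℂ := fun x => (g x, f x)
  have hmem : ∀ i, (δ i).1 ∈ stabGroup F := by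
    intro i
    refine ⟨Complex.I ^ ((δ i).2 : ℕ), ?_⟩
    funext x
    have h1 := congrFun (hf1 i) x
    have h2 := congrFun (hg1 i) x
    simp only [pauli, Pi.smul_apply] at h1 h2
    simp only [pauli, Pi.smul_apply, F, Prod.smul_mk]
    rw [h1, h2]
  have hF : StabLike F := by
    have h1 : LinearIndependent (ZMod 2) (fun i => (⟨(δ i).1, hmem i⟩ : stabGroup F)) := by
      apply LinearIndependent.of_comp (stabGroup F).subtype
      exact hlin
    have := h1.fintype_card_le_finrank
    change finrank (ZMod 2) V ≤ finrank (ZMod 2) (stabGroup F)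
    simpa using this
  have hF0 : F x0 ≠ 0 := by
    intro h
    exact hx0 (congrArg Prod.fst h)
  refine ⟨f x0 / g x0, ?_⟩
  funext x
  obtain ⟨c, hc⟩ := hF.rank_one x0 hF0 x
  have h1 : g x = c * g x0 := congrArg Prod.fst hc
  have h2 : f x = c * f x0 := congrArg Prod.snd hc
  rw [Pi.smul_apply, h1, h2, smul_eq_mul]
  field_simp

lemma exists_good {f : V → ℂ} (hf0 : f ≠ 0) (hf : StabLike f) :
    ∃ δ : Fin (finrank (ZMod 2) V) → (V × Dual (ZMod 2) V) × Fin 4, Good δ f := by
  obtain ⟨p, hp⟩ := exists_linearIndependent_of_le_finrank hf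
  have hc : ∀ i, ∃ k : Fin 4, pauli (p i).1 f = (Complex.I ^ (k : ℕ)) • f := by
    intro i
    obtain ⟨c, hc⟩ := (p i).2
    have h1 := eigen_sq hf0 hc
    rcases zmod2_cases ((p i).1.2 (p i).1.1) with h | h
    · rw [h, sgn_zero] at h1
      have h2 : (c - 1) * (c + 1) = 0 := by linear_combination h1
      rcases mul_eq_zero.1 h2 with h3 | h3
      · refine ⟨0, ?_⟩
        rw [hc, sub_eq_zero.1 h3]
        simp
      · refine ⟨2, ?_⟩
        rw [hc, eq_neg_of_add_eq_zero_left h3]
        simp
    · rw [h, sgn_one] at h1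
      have h2 : (c - Complex.I) * (c + Complex.I) = 0 := by
        linear_combination h1 - Complex.I_mul_I
      rcases mul_eq_zero.1 h2 with h3 | h3
      · refine ⟨1, ?_⟩
        rw [hc, sub_eq_zero.1 h3]
        simp
      · refine ⟨3, ?_⟩
        rw [hc, eq_neg_of_add_eq_zero_left h3]
        congr 1
        change -Complex.I = Complex.I ^ 3
        rw [pow_succ, Complex.I_sq]
        ring
  choose k hk using hc
  refine ⟨fun i => ((p i).1, k i), hf0, ?_, hk⟩
  exact hp.map' (stabGroup f).subtype (Submodule.ker_subtype _)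

/-- A small family of functions meeting every line of stabilizer-like functions. -/
lemma exists_lines (n : ℕ) (hn : finrank (ZMod 2) V = n) :
    ∃ T : ((Fin n → (V × Dual (ZMod 2) V) × Fin 4)) → (V → ℂ),
      ∀ f : V → ℂ, StabLike f → ∃ δ, ∃ c : ℂ, f = c • T δ := by
  classical
  subst hn
  refine ⟨fun δ => if h : ∃ f, Good δ f then h.choose else 0, ?_⟩
  intro f hf
  by_cases hf0 : f = 0
  · refine ⟨fun _ => (0, 0), 0, ?_⟩
    rw [hf0, zero_smul]
  · obtain ⟨δ, hδ⟩ := exists_good hf0 hf
    have hex : ∃ f, Good δ f := ⟨f, hδ⟩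
    obtain ⟨c, hc⟩ := good_unique hδ hex.choose_spec
    refine ⟨δ, c, ?_⟩
    simp only [dif_pos hex]
    exact hc

lemma exists_test_points {X : Type} [Finite X] [Nonempty X] (r : ℕ) :
    ∀ (W : Submodule ℂ (X → ℂ)), finrank ℂ W ≤ r →
      ∃ J : Fin r → X, ∀ w ∈ W, (∀ i, w (J i) = 0) → w = 0 := by
  induction r with
  | zero =>
    intro W hW
    refine ⟨Fin.elim0, ?_⟩
    intro w hw _
    have h1 : finrank ℂ W = 0 := Nat.le_zero.1 hW
    rw [Submodule.finrank_eq_zero] at h1
    rw [h1] at hw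
    exact (Submodule.mem_bot ℂ).1 hw
  | succ r ih =>
    intro W hW
    by_cases hbot : W = ⊥
    · refine ⟨fun _ => Classical.arbitrary X, ?_⟩
      intro w hw _
      rw [hbot] at hw
      exact (Submodule.mem_bot ℂ).1 hw
    · obtain ⟨w, hw, hw0⟩ := Submodule.exists_mem_ne_zero_of_ne_bot hbot
      obtain ⟨x, hx⟩ : ∃ x, w x ≠ 0 := by
        by_contra hcon
        push Not at hcon
        exact hw0 (funext hcon)
      let W' : Submodule ℂ (X → ℂ) := W ⊓ LinearMap.ker (LinearMap.proj x)
      have hlt : W' < W := by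
        refine lt_of_le_of_ne inf_le_left ?_
        intro heq
        have h1 : w ∈ W' := by rw [heq]; exact hw
        exact hx h1.2
      have hfin := Submodule.finrank_lt_finrank_of_lt hlt
      obtain ⟨J, hJ⟩ := ih W' (by omega)
      refine ⟨Fin.cons x J, ?_⟩
      intro v hv hvJ
      apply hJ v ⟨hv, ?_⟩
      · intro i
        have := hvJ i.succ
        simpa using this
      · have := hvJ 0
        simpa using this

/-- **Counting bound.** If all sign functions on `V` have rank at most `r` then `r` is large. -/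
theorem count_bound (n r : ℕ) (hn : finrank (ZMod 2) V = n)
    (h : ∀ D : V → ZMod 2, HasRank r (fun x => sgn (D x))) :
    2 ^ n ≤ r * (2 * n * n + 2 * n + 1) := by
  classical
  have : Fintype V := Fintype.ofFinite V
  have : Finite (Dual (ZMod 2) V) := Module.finite_of_finite (ZMod 2)
  have : Fintype (Dual (ZMod 2) V) := Fintype.ofFinite _
  obtain ⟨T, hT⟩ := exists_lines (V := V) n hn
  -- the choice of lines
  have h1 : ∀ D : V → ZMod 2, ∃ δ : Fin r → (Fin n → (V × Dual (ZMod 2) V) × Fin 4),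
      (fun x => sgn (D x)) ∈ Submodule.span ℂ (Set.range fun i => T (δ i)) := by
    intro D
    obtain ⟨φ, hφ, hsum⟩ := h D
    have h2 : ∀ i, ∃ δ, ∃ c : ℂ, φ i = c • T δ := fun i => hT _ (hφ i)
    choose δ c hc using h2
    refine ⟨δ, ?_⟩
    rw [hsum]
    apply Submodule.sum_mem
    intro i _
    rw [hc i]
    apply Submodule.smul_mem
    exact Submodule.subset_span ⟨i, rfl⟩
  choose δ hδ using h1
  have h2 : ∀ δ : Fin r → (Fin n → (V × Dual (ZMod 2) V) × Fin 4), ∃ J : Fin r → V,
      ∀ w ∈ Submodule.span ℂ (Set.range fun i => T (δ i)), (∀ i, w (J i) = 0) → w = 0 := by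
    intro δ
    apply exists_test_points
    have := finrank_range_le_card (R := ℂ) (fun i => T (δ i))
    simpa [Set.finrank] using this
  choose J hJ using h2
  have hinj : Function.Injective (fun D : V → ZMod 2 => (δ D, fun i => D (J (δ D) i))) := by
    intro D D' heq
    simp only [Prod.mk.injEq] at heq
    obtain ⟨e1, e2⟩ := heq
    have h3 : (fun x => sgn (D x)) - (fun x => sgn (D' x)) ∈
        Submodule.span ℂ (Set.range fun i => T (δ D i)) := by
      apply Submodule.sub_mem _ (hδ D)
      rw [e1]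
      exact hδ D'
    have h4 := hJ (δ D) _ h3 (by
      intro i
      have h5 : D (J (δ D) i) = D' (J (δ D') i) := congrFun e2 i
      rw [← e1] at h5
      change sgn (D (J (δ D) i)) - sgn (D' (J (δ D) i)) = 0
      rw [h5, sub_self])
    funext x
    have h5 := congrFun h4 x
    simp only [Pi.sub_apply, Pi.zero_apply] at h5
    exact sgn_inj (sub_eq_zero.1 h5)
  have hcard := Fintype.card_le_of_injective _ hinj
  have hV : Fintype.card V = 2 ^ n := by
    rw [Module.card_eq_pow_finrank (K := ZMod 2), ZMod.card, hn]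
  have hD : Fintype.card (Dual (ZMod 2) V) = 2 ^ n := by
    rw [Module.card_eq_pow_finrank (K := ZMod 2), ZMod.card, Subspace.dual_finrank_eq, hn]
  rw [Fintype.card_prod, Fintype.card_fun, Fintype.card_fun, Fintype.card_fun, Fintype.card_fun,
    Fintype.card_prod, Fintype.card_prod, hV, hD, ZMod.card, Fintype.card_fin, Fintype.card_fin,
    Fintype.card_fin] at hcard
  have h6 : (((2 : ℕ) ^ n * 2 ^ n * 4) ^ n) ^ r * 2 ^ r = 2 ^ (r * (2 * n * n + 2 * n + 1)) := by
    rw [show (4 : ℕ) = 2 ^ 2 by norm_num, ← pow_add, ← pow_add, ← pow_mul, ← pow_mul, ← pow_add]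
    congr 1
    ring
  rw [h6] at hcard
  exact (Nat.pow_le_pow_iff_right (by norm_num)).1 hcard

end Pool.Agent.H682R3.Stab
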