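import Pool.Agent.H682R3.Stab.Circuit

/-! One-hot encodings and the synthesis of arbitrary sign functions. -/

namespace Pool.Agent.H682R3.Stab

open Module

/-- indicator of `u = e_a` -/
noncomputable def oh (h : ℕ) (a : Fin h → ZMod 2) (u : (Fin h → ZMod 2) → ZMod 2) : ℂ := by
  classical exact if u = Pi.single a 1 then 1 else 0

lemma single_cons_iff {h : ℕ} (a0 : ZMod 2) (a : Fin h → ZMod 2)
    (u : (Fin (h + 1) → ZMod 2) → ZMod 2) :
    u = Pi.single (Fin.cons a0 a : Fin (h + 1) → ZMod 2) 1 ↔
      ((fun p : Fin h → ZMod 2 => u (Fin.cons 0 p) + u (Fin.cons 1 p)) = Pi.single a 1 ∧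
        (∀ p : Fin h → ZMod 2, u (Fin.cons 1 p) * (a0 + 1) = 0) ∧
        (∀ p : Fin h → ZMod 2, u (Fin.cons 0 p) * a0 = 0)) := by
  classical
  have e1 : (1 : ZMod 2) + 1 = 0 := rfl
  have e2 : (1 : ZMod 2) ≠ 0 := by decide
  have hcons : ∀ (s t : ZMod 2) (p q : Fin h → ZMod 2),
      (Fin.cons s p : Fin (h + 1) → ZMod 2) = Fin.cons t q ↔ s = t ∧ p = q := by
    intro s t p q
    exact Fin.cons_inj
  constructor
  · rintro rfl
    refine ⟨?_, ?_, ?_⟩
    · funext p
      rcases zmod2_cases a0 with rfl | rfl <;> by_cases hp : p = a <;>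
        simp [Pi.single_apply, hcons, hp, e2]
    · intro p
      rcases zmod2_cases a0 with rfl | rfl <;> simp [Pi.single_apply, hcons, e1, e2]
    · intro p
      rcases zmod2_cases a0 with rfl | rfl <;> simp [Pi.single_apply, hcons, e1]
  · rintro ⟨h1, h2, h3⟩
    funext q
    obtain ⟨s, p, rfl⟩ : ∃ s p, q = (Fin.cons s p : Fin (h + 1) → ZMod 2) :=
      ⟨q 0, Fin.tail q, (Fin.cons_self_tail q).symm⟩
    have h1p := congrFun h1 p
    have h2p := h2 p
    have h3p := h3 p
    simp only [Pi.single_apply] at h1p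
    rw [Pi.single_apply]
    simp only [hcons]
    rcases zmod2_cases a0 with rfl | rfl <;> rcases zmod2_cases s with rfl | rfl
    · simp only [zero_add, mul_one] at h2p
      rw [h2p, add_zero] at h1p
      rw [h1p]
      simp
    · simp only [zero_add, mul_one] at h2p
      rw [h2p]
      simp [e2]
    · simp only [mul_one] at h3p
      rw [h3p]
      simp [Ne.symm e2]
    · simp only [mul_one] at h3p
      rw [h3p, zero_add] at h1p
      rw [h1p]
      simp

lemma oh_succ {h : ℕ} (a0 : ZMod 2) (a : Fin h → ZMod 2)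
    (u : (Fin (h + 1) → ZMod 2) → ZMod 2) :
    oh (h + 1) (Fin.cons a0 a) u =
      (∏ p : Fin h → ZMod 2, (if u (Fin.cons 0 p) * a0 = 0 then (1 : ℂ) else 0)) *
      ((∏ p : Fin h → ZMod 2, (if u (Fin.cons 1 p) * (a0 + 1) = 0 then (1 : ℂ) else 0)) *
      oh h a (fun p => u (Fin.cons 0 p) + u (Fin.cons 1 p))) := by
  classical
  have h1 := single_cons_iff a0 a u
  rw [Finset.prod_boole, Finset.prod_boole]
  unfold oh
  by_cases hA : u = Pi.single (Fin.cons a0 a : Fin (h + 1) → ZMod 2) 1
  · obtain ⟨h2, h3, h4⟩ := h1.1 hA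
    rw [if_pos hA, if_pos h2, if_pos (fun p _ => h3 p), if_pos (fun p _ => h4 p)]
    ring
  · rw [if_neg hA]
    by_cases h2 : (fun p : Fin h → ZMod 2 => u (Fin.cons 0 p) + u (Fin.cons 1 p)) = Pi.single a 1
    · by_cases h3 : ∀ p : Fin h → ZMod 2, u (Fin.cons 1 p) * (a0 + 1) = 0
      · have h4 : ¬ ∀ p ∈ (Finset.univ : Finset (Fin h → ZMod 2)), u (Fin.cons 0 p) * a0 = 0 :=
          fun h4 => hA (h1.2 ⟨h2, h3, fun p => h4 p (Finset.mem_univ p)⟩)
        rw [if_neg h4]
        ring
      · have h4 : ¬ ∀ p ∈ (Finset.univ : Finset (Fin h → ZMod 2)),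
            u (Fin.cons 1 p) * (a0 + 1) = 0 := fun h4 => h3 (fun p => h4 p (Finset.mem_univ p))
        rw [if_neg h4]
        ring
    · rw [if_neg h2]
      ring

/-- The one-hot constraint on `h` address bits costs at most `18 * 2^h` magic states. -/
lemma Rk.onehot {x : ℂ} (hx0 : x ≠ 0) (hx4 : x ^ 4 ≠ 1) (h : ℕ) :
    ∀ {V : Type} [AddCommGroup V] [Module (ZMod 2) V] [Finite V] {d r : ℕ} {F : V → ℂ}
      (a : Fin h → V → ZMod 2) (u : (Fin h → ZMod 2) → V → ZMod 2),
      (∀ i, Aff (a i)) → (∀ p, Aff (u p)) → Rk x (d + 18 * 2 ^ h) r F →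
      Rk x d r (fun z => oh h (fun i => a i z) (fun p => u p z) * F z) := by
  classical
  induction h with
  | zero =>
    intro V _ _ _ d r F a u ha hu hR
    -- the cost is wasted here, first drop the extra states
    have h0 : ∀ k, Rk x (d + k) r F → Rk x d r F := by
      intro k
      induction k with
      | zero => exact fun h => h
      | succ k ih =>
        intro h
        apply ih
        have h1 := Rk.mag (d := d + k) h (Aff.const 0)
        simpa [qv] using h1
    have h1 := h0 _ hR
    have h2 := Rk.constraint h1 ((hu Fin.elim0).add (Aff.const 1))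
    refine (congrArg (Rk x d r) ?_).mp h2
    funext z
    congr 1
    unfold oh
    have h3 : ((fun p => u p z) = Pi.single (fun i => a i z) 1) ↔ u Fin.elim0 z + 1 = 0 := by
      constructor
      · intro h
        have h4 : u Fin.elim0 z = (Pi.single (fun i => a i z) 1 : (Fin 0 → ZMod 2) → ZMod 2)
            Fin.elim0 := congrFun h Fin.elim0
        have h5 : (Fin.elim0 : Fin 0 → ZMod 2) = (fun i => a i z) := Subsingleton.elim _ _
        rw [h4, h5, Pi.single_eq_same]
        rfl
      · intro h
        funext p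
        have h5 : p = (fun i => a i z) := Subsingleton.elim _ _
        have h6 : p = Fin.elim0 := Subsingleton.elim _ _
        rw [← h5, Pi.single_eq_same, h6]
        rcases zmod2_cases (u Fin.elim0 z) with h7 | h7
        · rw [h7] at h
          exact absurd h (by decide)
        · exact h7
    by_cases h4 : u Fin.elim0 z + 1 = 0
    · rw [if_pos h4, if_pos (h3.2 h4)]
    · rw [if_neg h4, if_neg (fun h => h4 (h3.1 h))]
  | succ h ih =>
    intro V _ _ _ d r F a u ha hu hR
    have e1 : d + 18 * 2 ^ (h + 1) = (d + 9 * 2 ^ h + 9 * 2 ^ h) + 18 * 2 ^ h := by ring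
    rw [e1] at hR
    have h1 := ih (fun i => a i.succ) (fun p z => u (Fin.cons 0 p) z + u (Fin.cons 1 p) z)
      (fun i => ha _) (fun p => (hu _).add (hu _)) hR
    have hcard : (Finset.univ : Finset (Fin h → ZMod 2)).card = 2 ^ h := by
      rw [Finset.card_univ, Fintype.card_fun, ZMod.card, Fintype.card_fin]
    have h2 := Rk.nands hx0 hx4 (Finset.univ : Finset (Fin h → ZMod 2))
      (s := fun p z => u (Fin.cons 1 p) z) (t := fun _ z => a 0 z + 1) (d := d + 9 * 2 ^ h)
      (r := r) (fun p => hu _) (fun p => (ha 0).add (Aff.const 1)) (by rw [hcard]; exact h1)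
    have h3 := Rk.nands hx0 hx4 (Finset.univ : Finset (Fin h → ZMod 2))
      (s := fun p z => u (Fin.cons 0 p) z) (t := fun _ z => a 0 z) (d := d)
      (r := r) (fun p => hu _) (fun p => (ha 0)) (by rw [hcard]; exact h2)
    refine (congrArg (Rk x d r) ?_).mp h3
    funext z
    have h4 := oh_succ (a 0 z) (fun i : Fin h => a i.succ z) (fun p => u p z)
    have h5 : (Fin.cons (a 0 z) (fun i : Fin h => a i.succ z) : Fin (h + 1) → ZMod 2) =
        fun i => a i z := by
      funext i
      refine Fin.cases ?_ (fun j => ?_) i <;> simp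
    rw [h5] at h4
    rw [h4]
    ring

/-- Synthesis of an arbitrary sign function on `2h` bits from `36 * 2^h` magic states. -/
theorem synth {x : ℂ} (hx0 : x ≠ 0) (hx4 : x ^ 4 ≠ 1) (h r : ℕ)
    (hR : HasRank r (mag x (36 * 2 ^ h)))
    (D : (Fin h → ZMod 2) × (Fin h → ZMod 2) → ZMod 2) :
    HasRank r (fun z => sgn (D z)) := by
  classical
  let A := Fin h → ZMod 2
  let U := A → ZMod 2
  have g0 : Rk x (36 * 2 ^ h) r (fun _ : (A × A) × (U × U) => (1 : ℂ)) := Rk.start hR
  -- the phase
  have hphase : ∀ S : Finset (A × A), Rk x (36 * 2 ^ h) r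
      (fun q : (A × A) × (U × U) => ∏ p ∈ S, sgn (q.2.1 p.1 * q.2.2 p.2)) := by
    intro S
    induction S using Finset.induction_on with
    | empty => simpa using g0
    | insert p S hp ih =>
      let s : Dual (ZMod 2) ((A × A) × (U × U)) :=
        (LinearMap.proj p.1).comp ((LinearMap.fst (ZMod 2) U U).comp
          (LinearMap.snd (ZMod 2) (A × A) (U × U)))
      let t : Dual (ZMod 2) ((A × A) × (U × U)) :=
        (LinearMap.proj p.2).comp ((LinearMap.snd (ZMod 2) U U).comp
          (LinearMap.snd (ZMod 2) (A × A) (U × U)))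
      have h1 := Rk.sgnMul ih s t
      refine (congrArg (Rk x (36 * 2 ^ h) r) ?_).mp h1
      funext q
      rw [Finset.prod_insert hp]
      rfl
  have g1 := hphase (Finset.univ.filter (fun p => D p = 1))
  have g2 := Rk.onehot hx0 hx4 h (V := (A × A) × (U × U)) (d := 18 * 2 ^ h)
    (fun i q => q.1.1 i) (fun p q => q.2.1 p)
    (fun i => Aff.lin ((LinearMap.proj i).comp ((LinearMap.fst (ZMod 2) A A).comp
          (LinearMap.fst (ZMod 2) (A × A) (U × U)))))
    (fun p => Aff.lin ((LinearMap.proj p).comp ((LinearMap.fst (ZMod 2) U U).comp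
          (LinearMap.snd (ZMod 2) (A × A) (U × U)))))
    (by
      rw [show 18 * 2 ^ h + 18 * 2 ^ h = 36 * 2 ^ h by ring]
      exact g1)
  have g3 := Rk.onehot hx0 hx4 h (V := (A × A) × (U × U)) (d := 0)
    (fun i q => q.1.2 i) (fun p q => q.2.2 p)
    (fun i => Aff.lin ((LinearMap.proj i).comp ((LinearMap.snd (ZMod 2) A A).comp
          (LinearMap.fst (ZMod 2) (A × A) (U × U)))))
    (fun p => Aff.lin ((LinearMap.proj p).comp ((LinearMap.snd (ZMod 2) U U).comp
          (LinearMap.snd (ZMod 2) (A × A) (U × U)))))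
    (by
      rw [zero_add]
      exact g2)
  have g4 := Rk.finish (Rk.sumAll g3)
  refine (congrArg (HasRank r) ?_).mp g4
  funext z
  obtain ⟨a, b⟩ := z
  -- evaluate the sum
  rw [Finset.sum_eq_single ((Pi.single a 1 : U), (Pi.single b 1 : U))]
  · have h1 : oh h (fun i => b i) (fun p => (Pi.single b 1 : U) p) = 1 := by
      unfold oh
      exact if_pos rfl
    have h2 : oh h (fun i => a i) (fun p => (Pi.single a 1 : U) p) = 1 := by
      unfold oh
      exact if_pos rfl
    simp only []
    rw [h1, h2, one_mul, one_mul]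
    by_cases hD : D (a, b) = 1
    · rw [Finset.prod_eq_single_of_mem (a, b) (by simp [hD])]
      · simp [hD]
      · rintro ⟨a', b'⟩ _ hne
        by_cases ha : a' = a
        · have hb : b' ≠ b := by
            rintro rfl
            exact hne (by rw [ha])
          simp [Pi.single_eq_of_ne hb]
        · simp [Pi.single_eq_of_ne ha]
    · have hD0 : D (a, b) = 0 := (zmod2_cases _).resolve_right hD
      rw [hD0, sgn_zero]
      apply Finset.prod_eq_one
      rintro ⟨a', b'⟩ hmem
      have hD' : D (a', b') = 1 := (Finset.mem_filter.1 hmem).2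
      by_cases ha : a' = a
      · have hb : b' ≠ b := by
          rintro rfl
          rw [ha] at hD'
          exact hD hD'
        simp [Pi.single_eq_of_ne hb]
      · simp [Pi.single_eq_of_ne ha]
  · rintro ⟨u, u'⟩ _ hne
    simp only []
    by_cases hu : u = Pi.single a 1
    · have hu' : u' ≠ Pi.single b 1 := by
        rintro rfl
        exact hne (by rw [hu])
      have h1 : oh h (fun i => b i) (fun p => u' p) = 0 := by
        unfold oh
        exact if_neg hu'
      rw [h1, zero_mul]
    · have h2 : oh h (fun i => a i) (fun p => u p) = 0 := by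
        unfold oh
        exact if_neg hu
      rw [h2, zero_mul, mul_zero]
  · intro h
    exact absurd (Finset.mem_univ _) h

lemma hasRank_mag_mono {x : ℂ} {r d d' : ℕ} (hd : d' ≤ d) (h : HasRank r (mag x d)) :
    HasRank r (mag x d') := by
  induction hd with
  | refl => exact h
  | @step m _ ih =>
    apply ih
    let L : (Fin m → ZMod 2) →ₗ[ZMod 2] (Fin (m + 1) → ZMod 2) :=
      { toFun := fun q => Fin.cons 0 q
        map_add' := by
          intro x y
          funext i
          refine Fin.cases ?_ (fun j => ?_) i <;> simp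
        map_smul' := by
          intro c x
          funext i
          refine Fin.cases ?_ (fun j => ?_) i <;> simp }
    have h1 := h.comp L
    refine (congrArg (HasRank r) ?_).mp h1
    funext y
    simp [L, mag, Fin.prod_univ_succ, qv]

/-- the core lower bound -/
theorem core_bound {x : ℂ} (hx0 : x ≠ 0) (hx4 : x ^ 4 ≠ 1) {h r d : ℕ} (hd : 36 * 2 ^ h ≤ d)
    (hR : HasRank r (mag x d)) : 4 ^ h ≤ r * (8 * h * h + 4 * h + 1) := by
  have h1 := hasRank_mag_mono hd hR
  have h2 := count_bound (V := (Fin h → ZMod 2) × (Fin h → ZMod 2)) (2 * h) r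
    (by rw [Module.finrank_prod, Module.finrank_fin_fun]; ring) (synth hx0 hx4 h r h1)
  have h3 : (4 : ℕ) ^ h = 2 ^ (2 * h) := by rw [pow_mul]; norm_num
  rw [h3]
  refine h2.trans (le_of_eq ?_)
  ring

end Pool.Agent.H682R3.Stab
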