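import Pool.Agent.H682R3.Stab.Basic

/-! More closure properties of stabilizer-like functions. -/

namespace Pool.Agent.H682R3.Stab

open Module

variable {V : Type} [AddCommGroup V] [Module (ZMod 2) V] [Finite V]
variable {V' : Type} [AddCommGroup V'] [Module (ZMod 2) V'] [Finite V']
variable {M : Type} [AddCommGroup M] [Module ℂ M]

lemma StabLike.sgnLin {f : V → M} (hf : StabLike f) (ℓ : Dual (ZMod 2) V) :
    StabLike (fun x => sgn (ℓ x) • f x) := by
  refine le_trans hf (Submodule.finrank_mono ?_)
  rintro p ⟨d, hd⟩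
  refine ⟨sgn (ℓ p.1) * d, ?_⟩
  funext x
  have h1 := congrFun hd x
  simp only [pauli, Pi.smul_apply, map_add, sgn_add, mul_smul] at h1 ⊢
  rw [smul_comm d, ← h1, smul_smul, smul_smul, smul_smul, smul_smul]
  congr 1
  ring

lemma StabLike.sgnMul {f : V → M} (hf : StabLike f) (s t : Dual (ZMod 2) V) :
    StabLike (fun x => sgn (s x * t x) • f x) := by
  let φ : (stabGroup f) →ₗ[ZMod 2] (V × Dual (ZMod 2) V) :=
    { toFun := fun p => (p.1.1, p.1.2 + s p.1.1 • t + t p.1.1 • s)
      map_add' := by
        intro x y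
        refine Prod.ext rfl ?_
        simp only [Submodule.coe_add, Prod.fst_add, Prod.snd_add, map_add, add_smul]
        abel
      map_smul' := by
        intro c x
        refine Prod.ext rfl ?_
        simp only [Submodule.coe_smul, Prod.smul_fst, Prod.smul_snd, map_smul, smul_add,
          RingHom.id_apply, smul_smul, smul_eq_mul] }
  have hinj : Function.Injective φ := by
    rintro ⟨⟨a, b⟩, h⟩ ⟨⟨a', b'⟩, h'⟩ heq
    simp only [φ, LinearMap.coe_mk, AddHom.coe_mk, Prod.mk.injEq] at heq
    obtain ⟨rfl, h2⟩ := heq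
    have h3 : b = b' := by
      have := add_right_cancel h2
      exact add_right_cancel this
    subst h3
    rfl
  refine StabLike.of_inj (X := stabGroup f) φ hinj ?_ hf
  rintro ⟨⟨a, b⟩, d, hd⟩
  refine ⟨sgn (s a * t a) * d, ?_⟩
  funext x
  have h1 := congrFun hd x
  simp only [pauli, Pi.smul_apply] at h1
  simp only [φ, LinearMap.coe_mk, AddHom.coe_mk, pauli, Pi.smul_apply, LinearMap.add_apply,
    LinearMap.smul_apply, smul_eq_mul, map_add]
  rw [show (s x + s a) * (t x + t a) = s x * t x + s x * t a + s a * t x + s a * t a by ring]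
  rw [sgn_add, sgn_add, sgn_add, sgn_add, sgn_add, smul_smul, mul_smul (sgn (s a * t a)) d,
    smul_comm d, ← h1, smul_smul, smul_smul]
  congr 1
  have e1 := sgn_mul_self (s a * t x)
  have e2 := sgn_mul_self (t a * s x)
  rw [mul_comm (s x) (t a)]
  linear_combination (sgn (b x) * sgn (s x * t x) * sgn (s a * t a)) *
    (e1 * sgn (t a * s x) * sgn (t a * s x) + e2)

/-- reindexing the last factor -/
lemma StabLike.sumPi (k : ℕ) : ∀ {V : Type} [AddCommGroup V] [Module (ZMod 2) V] [Finite V]
    {f : V × (Fin k → ZMod 2) → M}, StabLike f → StabLike (fun x => ∑ u, f (x, u)) := by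
  induction k with
  | zero =>
    intro V _ _ _ f hf
    have h1 := StabLike.equiv hf (LinearEquiv.prodUnique (R := ZMod 2) (M := V)
      (M₂ := Fin 0 → ZMod 2)).symm
    refine (congrArg StabLike ?_).mp h1
    funext x
    simp
  | succ k ih =>
    intro V _ _ _ f hf
    let e : ((V × (Fin k → ZMod 2)) × ZMod 2) ≃ₗ[ZMod 2] (V × (Fin (k + 1) → ZMod 2)) :=
      { toFun := fun q => (q.1.1, Fin.cons q.2 q.1.2)
        invFun := fun q => ((q.1, fun i => q.2 i.succ), q.2 0)
        left_inv := by
          rintro ⟨⟨x, u⟩, t⟩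
          simp
        right_inv := by
          rintro ⟨x, u⟩
          simp
          funext i
          refine Fin.cases ?_ (fun j => ?_) i <;> simp
        map_add' := by
          rintro ⟨⟨x, u⟩, t⟩ ⟨⟨x', u'⟩, t'⟩
          refine Prod.ext rfl ?_
          funext i
          refine Fin.cases ?_ (fun j => ?_) i <;> simp
        map_smul' := by
          rintro c ⟨⟨x, u⟩, t⟩
          refine Prod.ext rfl ?_
          funext i
          refine Fin.cases ?_ (fun j => ?_) i <;> simp }
    have h1 := (StabLike.equiv hf e).sumBit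
    have h2 := ih h1
    refine (congrArg StabLike ?_).mp h2
    funext x
    rw [← (Fin.consEquiv (fun _ => ZMod 2)).sum_comp, Fintype.sum_prod_type_right]
    apply Finset.sum_congr rfl
    intro u _
    have h3 : (Finset.univ : Finset (ZMod 2)) = {0, 1} := rfl
    rw [h3, Finset.sum_pair (by decide)]
    rfl

lemma StabLike.sumAll {W : Type} [AddCommGroup W] [Module (ZMod 2) W] [Fintype W]
    {f : V × W → M} (hf : StabLike f) : StabLike (fun x => ∑ w, f (x, w)) := by
  let e0 : W ≃ₗ[ZMod 2] (Fin (finrank (ZMod 2) W) → ZMod 2) := (Module.finBasis (ZMod 2) W).equivFun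
  let e : (V × (Fin (finrank (ZMod 2) W) → ZMod 2)) ≃ₗ[ZMod 2] (V × W) :=
    LinearEquiv.prodCongr (LinearEquiv.refl _ _) e0.symm
  have h1 := StabLike.sumPi _ (StabLike.equiv hf e)
  refine (congrArg StabLike ?_).mp h1
  funext x
  rw [← e0.symm.toEquiv.sum_comp]
  rfl

lemma StabLike.snd {f : V → M} (hf : StabLike f) : StabLike (fun x : V' × V => f x.2) :=
  StabLike.equiv (StabLike.fst (W := V') hf) (LinearEquiv.prodComm (ZMod 2) V' V)

lemma StabLike.indicators {f : V → M} (hf : StabLike f) (S : Finset (Dual (ZMod 2) V)) :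
    StabLike (fun x => (∏ ℓ ∈ S, (1 + sgn (ℓ x))) • f x) := by
  classical
  induction S using Finset.induction_on with
  | empty => simpa using hf
  | insert ℓ S hℓ ih =>
    have h1 := ih.indicator ℓ 0
    refine (congrArg StabLike ?_).mp h1
    funext x
    rw [Finset.prod_insert hℓ, add_zero, smul_smul]

lemma exists_dual_one {x : V} (hx : x ≠ 0) : ∃ ℓ : Dual (ZMod 2) V, ℓ x = 1 := by
  by_contra hcon
  push Not at hcon
  apply hx
  rw [← Module.forall_dual_apply_eq_zero_iff (ZMod 2)]
  intro ℓ
  exact (zmod2_cases (ℓ x)).resolve_right (hcon ℓ)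

lemma prod_indicator [Fintype (Dual (ZMod 2) V)] [DecidableEq V] (x : V) :
    (∏ ℓ : Dual (ZMod 2) V, (1 + sgn (ℓ x))) =
      if x = 0 then (2 : ℂ) ^ (Fintype.card (Dual (ZMod 2) V)) else 0 := by
  split_ifs with hx
  · subst hx
    simp only [map_zero, sgn_zero, Finset.prod_const, Finset.card_univ]
    norm_num
  · obtain ⟨ℓ, hℓ⟩ := exists_dual_one hx
    apply Finset.prod_eq_zero (Finset.mem_univ ℓ)
    rw [hℓ]
    simp

/-- pulling back along a linear map -/
lemma StabLike.comp {f : V → M} (hf : StabLike f) (L : V' →ₗ[ZMod 2] V) :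
    StabLike (fun x => f (L x)) := by
  classical
  have : Fintype V := Fintype.ofFinite V
  have : Finite (Dual (ZMod 2) V) := Module.finite_of_finite (ZMod 2)
  have : Fintype (Dual (ZMod 2) V) := Fintype.ofFinite _
  let e : (V' × V) ≃ₗ[ZMod 2] (V' × V) :=
    { toFun := fun q => (q.1, q.2 + L q.1)
      invFun := fun q => (q.1, q.2 + L q.1)
      left_inv := by
        rintro ⟨x, y⟩
        simp only [add_assoc, vadd_self, add_zero]
      right_inv := by
        rintro ⟨x, y⟩
        simp only [add_assoc, vadd_self, add_zero]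
      map_add' := by
        rintro ⟨x, y⟩ ⟨x', y'⟩
        refine Prod.ext rfl ?_
        simp only [Prod.mk_add_mk, map_add]
        abel
      map_smul' := by
        rintro c ⟨x, y⟩
        refine Prod.ext rfl ?_
        simp only [Prod.smul_mk, map_smul, RingHom.id_apply, smul_add] }
  have h1 : StabLike (fun x : V' × V => f (x.2 + L x.1)) :=
    StabLike.equiv (StabLike.snd (V' := V') hf) e
  have h2 := h1.indicators
    (Finset.univ.image (fun ℓ : Dual (ZMod 2) V => ℓ.comp (LinearMap.snd (ZMod 2) V' V)))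
  have h3 := h2.sumAll
  have h4 := h3.smul (((2 : ℂ) ^ (Fintype.card (Dual (ZMod 2) V)))⁻¹)
  refine (congrArg StabLike ?_).mp h4
  funext x
  simp only [Pi.smul_apply]
  have h5 : ∀ y : V, (∏ ℓ ∈ Finset.univ.image (fun ℓ : Dual (ZMod 2) V =>
      ℓ.comp (LinearMap.snd (ZMod 2) V' V)), (1 + sgn (ℓ (x, y)))) =
      if y = 0 then (2 : ℂ) ^ (Fintype.card (Dual (ZMod 2) V)) else 0 := by
    intro y
    rw [Finset.prod_image, ← prod_indicator y]
    · rfl
    · intro ℓ _ ℓ' _ h
      apply LinearMap.ext
      intro z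
      have := congrArg (fun l => l ((0 : V'), z)) h
      simpa using this
  simp only [h5]
  rw [Finset.sum_eq_single (0 : V)]
  · simp only [if_true, zero_add, smul_smul]
    rw [inv_mul_cancel₀ (pow_ne_zero _ two_ne_zero), one_smul]
  · intro y _ hy
    rw [if_neg hy, zero_smul]
  · intro h
    exact absurd (Finset.mem_univ _) h

/-- **Rank one lemma.** A vector valued stabilizer-like function takes values on a line. -/
lemma StabLike.rank_one {f : V → M} (hf : StabLike f) (x0 : V) (hx0 : f x0 ≠ 0) (x : V) :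
    ∃ c : ℂ, f x = c • f x0 := by
  have hf0 : f ≠ 0 := fun h => hx0 (by rw [h]; rfl)
  by_cases hx : f x = 0
  · exact ⟨0, by rw [hx, zero_smul]⟩
  let A : Submodule (ZMod 2) V := (stabGroup f).map (LinearMap.fst (ZMod 2) V (Dual (ZMod 2) V))
  let K : Submodule (ZMod 2) (Dual (ZMod 2) V) :=
    (stabGroup f).comap (LinearMap.inr (ZMod 2) V (Dual (ZMod 2) V))
  have hKA : K ≤ A.dualAnnihilator := by
    intro b hb
    rw [Submodule.mem_dualAnnihilator]
    rintro _ ⟨p, hp, rfl⟩
    have := commute_of_mem hf0 hp hb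
    simpa using this
  have hdim : finrank (ZMod 2) (stabGroup f) ≤ finrank (ZMod 2) A + finrank (ZMod 2) K := by
    let π : stabGroup f →ₗ[ZMod 2] V :=
      { toFun := fun p => p.1.1
        map_add' := by intro x y; rfl
        map_smul' := by intro c x; rfl }
    have h1 := LinearMap.finrank_range_add_finrank_ker (K := ZMod 2) (V := stabGroup f)
      (V₂ := V) π
    have h2 : finrank (ZMod 2) (LinearMap.range π) ≤ finrank (ZMod 2) A := by
      apply Submodule.finrank_mono
      rintro _ ⟨p, rfl⟩
      exact ⟨p.1, p.2, rfl⟩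
    have h3 : finrank (ZMod 2) (LinearMap.ker π) ≤ finrank (ZMod 2) K := by
      let κ : LinearMap.ker π →ₗ[ZMod 2] K :=
        { toFun := fun q => ⟨q.1.1.2, by
            have h4 : q.1.1.1 = 0 := q.2
            have h5 : ((0 : V), q.1.1.2) = q.1.1 := Prod.ext h4.symm rfl
            change ((0 : V), q.1.1.2) ∈ stabGroup f
            rw [h5]
            exact q.1.2⟩
          map_add' := by intro x y; rfl
          map_smul' := by intro c x; rfl }
      apply LinearMap.finrank_le_finrank_of_injective (f := κ)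
      rintro ⟨⟨⟨a, b⟩, h⟩, hq⟩ ⟨⟨⟨a', b'⟩, h'⟩, hq'⟩ heq
      have e1 : b = b' := congrArg Subtype.val heq
      have e2 : a = 0 := hq
      have e3 : a' = 0 := hq'
      subst e1 e2 e3
      rfl
    omega
  have hK : K = A.dualAnnihilator := by
    apply Submodule.eq_of_le_of_finrank_le hKA
    have h1 := Subspace.finrank_add_finrank_dualAnnihilator_eq A
    unfold StabLike at hf
    omega
  -- the difference x - x0 lies in A
  have hmemA : x + x0 ∈ A := by
    rw [← Subspace.forall_mem_dualAnnihilator_apply_eq_zero_iff]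
    intro b hb
    rw [← hK] at hb
    obtain ⟨c, hc⟩ : ((0 : V), b) ∈ stabGroup f := hb
    have h1 := congrFun hc x
    have h2 := congrFun hc x0
    simp only [pauli, Pi.smul_apply, add_zero] at h1 h2
    have h3 : (sgn (b x) - c) • f x = 0 := by rw [sub_smul, h1, sub_self]
    have h4 : (sgn (b x0) - c) • f x0 = 0 := by rw [sub_smul, h2, sub_self]
    have h5 := sub_eq_zero.1 ((smul_eq_zero.1 h3).resolve_right hx)
    have h6 := sub_eq_zero.1 ((smul_eq_zero.1 h4).resolve_right hx0)
    rw [map_add, sgn_inj (h5.trans h6.symm)]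
    exact zmod2_add_self _
  obtain ⟨p, ⟨c, hc⟩, hp⟩ := hmemA
  have hp' : p.1 = x + x0 := hp
  have h1 := congrFun hc x0
  simp only [pauli, Pi.smul_apply, hp'] at h1
  rw [show x0 + (x + x0) = x + (x0 + x0) by abel, vadd_self, add_zero] at h1
  refine ⟨sgn (p.2 x0) * c, ?_⟩
  rw [mul_smul, ← h1, smul_smul, sgn_mul_self, one_smul]

end Pool.Agent.H682R3.Stab
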